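import Pool.Agent.MWC.Stmts

/-!
# Squad MWC, row TBR (helper70): the table of absorption, both cases
-/

set_option autoImplicit false

namespace Pool.Agent.MWC.H70

open Pool.Agent.Helper14_MV Pool.Agent.Helper2_MV Pool.Agent.MVO Pool.Agent.MWL

/-- the entry of the shape -/
theorem shp_get (k : ℕ) (c : ℕ → ℕ) (j : ℕ) (hj : j ≤ k) :
    (shp false k c).getD j 0 = if c j = 0 then 0 else if ∃ p ≤ j, 2 ≤ c p then 2 else 1 := by
  have h1 : j < (List.range (k + 1)).length := by rw [List.length_range]; omega
  unfold shp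
  rw [List.getD_eq_getElem?_getD, List.getElem?_map, List.getElem?_eq_getElem h1,
    List.getElem_range]
  simp only [Option.map_some, Option.getD_some]
  by_cases h0 : c j = 0
  · simp only [h0, if_true]
  · simp only [h0, if_false]
    have h2 : ((List.range (k + 1)).any (fun p => (if (false : Bool) = true then Nat.ble j p else Nat.ble p j) &&
        Nat.ble 2 (c p))) = true ↔ ∃ p ≤ j, 2 ≤ c p := by
      rw [List.any_eq_true]
      constructor
      · rintro ⟨p, hp, h⟩
        simp only [Bool.false_eq_true, if_false, Bool.and_eq_true, Nat.ble_eq] at h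
        exact ⟨p, h.1, h.2⟩
      · rintro ⟨p, hp, h⟩
        refine ⟨p, List.mem_range.2 (by omega), ?_⟩
        simp only [Bool.false_eq_true, if_false, Bool.and_eq_true, Nat.ble_eq]
        exact ⟨hp, h⟩
    by_cases h3 : ∃ p ≤ j, 2 ≤ c p
    · rw [if_pos (h2.2 h3), if_pos h3]
    · rw [if_neg (fun h => h3 (h2.1 h)), if_neg h3]

theorem shp_len (r : Bool) (k : ℕ) (c : ℕ → ℕ) : (shp r k c).length = k + 1 := by
  unfold shp
  rw [List.length_map, List.length_range]

theorem get2 {k : ℕ} {c : ℕ → ℕ} {j : ℕ} (hj : j ≤ k) :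
    (shp false k c).getD j 0 = 2 ↔ Hv c j := by
  rw [shp_get k c j hj]
  unfold Hv
  by_cases h0 : c j = 0
  · simp [h0]
  · rw [if_neg h0]
    by_cases h3 : ∃ p ≤ j, 2 ≤ c p
    · rw [if_pos h3]
      exact ⟨fun _ => ⟨h0, h3⟩, fun _ => rfl⟩
    · rw [if_neg h3]
      constructor
      · intro h
        exact absurd h (by decide)
      · rintro ⟨_, h⟩
        exact absurd h h3

theorem get0 {k : ℕ} {c : ℕ → ℕ} {j : ℕ} (hj : j ≤ k) :
    (shp false k c).getD j 0 = 0 ↔ c j = 0 := by
  rw [shp_get k c j hj]
  by_cases h0 : c j = 0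
  · simp [h0]
  · rw [if_neg h0]
    by_cases h3 : ∃ p ≤ j, 2 ≤ c p
    · rw [if_pos h3]
      constructor
      · intro h
        exact absurd h (by decide)
      · intro h
        exact absurd h h0
    · rw [if_neg h3]
      constructor
      · intro h
        exact absurd h (by decide)
      · intro h
        exact absurd h h0

/-- a test on the entries before `i` -/
theorem any_take {s : List ℕ} {i : ℕ} (hi : i ≤ s.length) (p : ℕ → Bool) :
    (s.take i).any p = true ↔ ∃ j < i, p (s.getD j 0) = true := by
  rw [List.any_eq_true]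
  constructor
  · rintro ⟨x, hx, h⟩
    obtain ⟨j, hj, rfl⟩ := List.getElem_of_mem hx
    rw [List.length_take] at hj
    refine ⟨j, by omega, ?_⟩
    rw [List.getElem_take] at h
    rw [List.getD_eq_getElem _ _ (by omega)]
    exact h
  · rintro ⟨j, hj, h⟩
    have h1 : j < s.length := by omega
    rw [List.getD_eq_getElem _ _ h1] at h
    have h2 : j < (s.take i).length := by rw [List.length_take]; omega
    refine ⟨(s.take i)[j], List.getElem_mem h2, ?_⟩
    rw [List.getElem_take]
    exact h

/-- a test on the entries from `i` on -/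
theorem any_drop {s : List ℕ} {i : ℕ} (p : ℕ → Bool) :
    (s.drop i).any p = true ↔ ∃ j, i ≤ j ∧ j < s.length ∧ p (s.getD j 0) = true := by
  rw [List.any_eq_true]
  constructor
  · rintro ⟨x, hx, h⟩
    obtain ⟨j, hj, rfl⟩ := List.getElem_of_mem hx
    rw [List.length_drop] at hj
    refine ⟨i + j, by omega, by omega, ?_⟩
    rw [List.getElem_drop] at h
    rw [List.getD_eq_getElem _ _ (by omega)]
    exact h
  · rintro ⟨j, hj, hj2, h⟩
    rw [List.getD_eq_getElem _ _ hj2] at h
    have h2 : j - i < (s.drop i).length := by rw [List.length_drop]; omega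
    refine ⟨(s.drop i)[j - i], List.getElem_mem h2, ?_⟩
    rw [List.getElem_drop]
    have e : i + (j - i) = j := by omega
    simp only [e]
    exact h

theorem lbs_eq {k : ℕ} {c : ℕ → ℕ} {i : ℕ} (hi : i ≤ k) : lbs (shp false k c) i = lb c i := by
  have e : (shp false k c).take i = (List.range i).map (fun j => (shp false k c).getD j 0) := by
    apply List.ext_getElem
    · rw [List.length_take, shp_len, List.length_map, List.length_range]
      omega
    · intro j h1 h2
      rw [List.getElem_take, List.getElem_map, List.getElem_range]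
      rw [List.length_take, shp_len] at h1
      rw [List.getD_eq_getElem _ _ (by rw [shp_len]; omega)]
  unfold lbs lb
  rw [e, List.filter_map, List.length_map]
  have e2 : (Finset.range i).filter (fun j => c j ≠ 0) =
      ((List.range i).filter (fun j => decide (c j ≠ 0))).toFinset := by
    ext x
    simp
  rw [e2, List.toFinset_card_of_nodup (List.Nodup.filter _ List.nodup_range)]
  congr 1
  apply List.filter_congr
  intro j hj
  rw [List.mem_range] at hj
  simp only [Function.comp_apply]
  have h := get0 (k := k) (c := c) (j := j) (by omega)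
  by_cases h0 : c j = 0
  · rw [h.2 h0]
    simp [h0]
  · have h1 : (shp false k c).getD j 0 ≠ 0 := fun h2 => h0 (h.1 h2)
    have h2 : Nat.beq ((shp false k c).getD j 0) 0 = false := by
      rw [← Bool.not_eq_true, Nat.beq_eq]
      exact h1
    rw [h2]
    simp [h0]

theorem sum_eq {k : ℕ} {c : ℕ → ℕ} (h : ∀ p ≤ k, c p ≤ 1) : (shp false k c).sum = deg k c := by
  have e : shp false k c = (List.range (k + 1)).map c := by
    apply List.ext_getElem
    · rw [shp_len, List.length_map, List.length_range]
    · intro j h1 h2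
      rw [List.getElem_map, List.getElem_range]
      rw [shp_len] at h1
      have h3 := shp_get k c j (by omega)
      rw [List.getD_eq_getElem _ _ (by rw [shp_len]; omega)] at h3
      rw [h3]
      have h4 : ¬ ∃ p ≤ j, 2 ≤ c p := by
        rintro ⟨p, hp, h5⟩
        have := h p (by omega)
        omega
      have h5 := h j (by omega)
      by_cases h0 : c j = 0
      · simp [h0]
      · simp only [h0, if_false, h4]
        omega
  rw [e]
  unfold deg
  rw [Finset.sum_range]
  rw [← List.sum_ofFn]
  congr 1
  apply List.ext_getElem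
  · rw [List.length_map, List.length_range, List.length_ofFn]
  · intro j h1 h2
    rw [List.getElem_map, List.getElem_range, List.getElem_ofFn]

theorem ggl_iff {n : ℕ} {R : FC} {l : ℕ} : GG n R l ↔ ∀ κ ∈ ggl l, Has n R κ := by
  unfold GG
  cases l with
  | zero => simp [ggl]
  | succ l => simp [ggl]

/-- the table in the case `r = false` -/
theorem tabF_spec (hH : HvpStmt) (h1 : Ta1Stmt) (h2 : Ta2Stmt) {n : ℕ} {R : FC} (hR : LR n R)
    {k : ℕ} {c : ℕ → ℕ} {i : ℕ} (hi : i ≤ k) (hd : 2 ≤ deg k c) :
    MWL.Ab n R k c i ↔ ∀ κ ∈ tabF (shp false k c) i, Has n R κ := by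
  have len := shp_len false k c
  have tk2 : ((shp false k c).take i).any (fun x => Nat.beq x 2) = true ↔ ∃ p < i, 2 ≤ c p := by
    rw [any_take (by omega)]
    constructor
    · rintro ⟨j, hj, h⟩
      rw [Nat.beq_eq] at h
      obtain ⟨h3, p, hp, h4⟩ := (get2 (by omega)).1 h
      exact ⟨p, by omega, h4⟩
    · rintro ⟨p, hp, h⟩
      refine ⟨p, hp, ?_⟩
      rw [Nat.beq_eq]
      exact (get2 (by omega)).2 ⟨by omega, p, le_refl p, h⟩
  have dr0 : ((shp false k c).drop (i + 1)).any (fun x => !(Nat.beq x 0)) = true ↔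
      ∃ q, i < q ∧ q ≤ k ∧ c q ≠ 0 := by
    rw [any_drop]
    constructor
    · rintro ⟨q, h3, h4, h5⟩
      rw [Bool.not_eq_true', ← Bool.not_eq_true, Nat.beq_eq] at h5
      exact ⟨q, by omega, by omega, fun h => h5 ((get0 (by omega)).2 h)⟩
    · rintro ⟨q, h3, h4, h5⟩
      refine ⟨q, by omega, by omega, ?_⟩
      rw [Bool.not_eq_true', ← Bool.not_eq_true, Nat.beq_eq]
      exact fun h => h5 ((get0 (by omega)).1 h)
  have dr2 : (∀ p ≤ i, c p ≤ 1) → (((shp false k c).drop (i + 1)).any (fun x => Nat.beq x 2) = true ↔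
      ∃ q, i < q ∧ q ≤ k ∧ 2 ≤ c q) := by
    intro hp
    rw [any_drop]
    constructor
    · rintro ⟨q, h3, h4, h5⟩
      rw [Nat.beq_eq] at h5
      obtain ⟨h6, p, h7, h8⟩ := (get2 (by omega)).1 h5
      refine ⟨p, ?_, by omega, h8⟩
      by_contra h9
      have := hp p (by omega)
      omega
    · rintro ⟨q, h3, h4, h5⟩
      refine ⟨q, by omega, by omega, ?_⟩
      rw [Nat.beq_eq]
      exact (get2 (by omega)).2 ⟨by omega, q, le_refl q, h5⟩
  obtain ⟨a1, a2, a3, a4⟩ := h1 n R hR k c i hi
  unfold tabF
  by_cases hv : Hv c i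
  · rw [if_pos ((get2 hi).2 hv)]
    simp only [List.not_mem_nil, false_imp_iff, implies_true, iff_true]
    exact (hH n R hR k c i hi).1 hv
  rw [if_neg (fun h => hv ((get2 hi).1 h))]
  by_cases h0 : c i = 0
  · rw [if_pos ((get0 hi).2 h0)]
    by_cases t2 : ∃ p < i, 2 ≤ c p
    · rw [if_pos (tk2.2 t2)]
      by_cases d0 : ∃ q, i < q ∧ q ≤ k ∧ c q ≠ 0
      · rw [if_pos (dr0.2 d0), a1 h0 t2 d0]
        simp
      · rw [if_neg (fun h => d0 (dr0.1 h)), a2 h0 t2 (fun q hq hq2 => by
          by_contra h; exact d0 ⟨q, hq, hq2, h⟩)]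
        simp
    · rw [if_neg (fun h => t2 (tk2.1 h))]
      have hp : ∀ p ≤ i, c p ≤ 1 := by
        intro p hp
        rcases Nat.lt_or_ge p i with h | h
        · by_contra h3
          exact t2 ⟨p, h, by omega⟩
        · have : p = i := by omega
          subst this
          omega
      by_cases d2 : ∃ q, i < q ∧ q ≤ k ∧ 2 ≤ c q
      · rw [if_pos ((dr2 hp).2 d2), a3 h0 hp d2, lbs_eq hi]
        exact ggl_iff
      · rw [if_neg (fun h => d2 ((dr2 hp).1 h))]
        have hall : ∀ p ≤ k, c p ≤ 1 := by
          intro p hp2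
          rcases Nat.lt_or_ge i p with h | h
          · by_contra h3
            exact d2 ⟨p, h, hp2, by omega⟩
          · exact hp p h
        obtain ⟨b1, b2, b3⟩ := h2 n R hR k c i hi hall hd
        by_cases d0 : ∃ q, i < q ∧ q ≤ k ∧ c q ≠ 0
        · rw [if_pos (dr0.2 d0), b2 h0 d0, lbs_eq hi, sum_eq hall, ggl_iff]
          simp
        · rw [if_neg (fun h => d0 (dr0.1 h)), b3 h0 (fun q hq hq2 => by
            by_contra h; exact d0 ⟨q, hq, hq2, h⟩), sum_eq hall]
          simp
  · rw [if_neg (fun h => h0 ((get0 hi).1 h))]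
    have hp : ∀ p ≤ i, c p ≤ 1 := by
      intro p hp
      by_contra h3
      exact hv ⟨h0, p, hp, by omega⟩
    have hc1 : c i = 1 := by
      have := hp i (le_refl i)
      omega
    by_cases d2 : ∃ q, i < q ∧ q ≤ k ∧ 2 ≤ c q
    · rw [if_pos ((dr2 hp).2 d2), a4 hc1 hp d2, lbs_eq hi]
      simp
    · rw [if_neg (fun h => d2 ((dr2 hp).1 h))]
      have hall : ∀ p ≤ k, c p ≤ 1 := by
        intro p hp2
        rcases Nat.lt_or_ge i p with h | h
        · by_contra h3
          exact d2 ⟨p, h, hp2, by omega⟩
        · exact hp p h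
      obtain ⟨b1, b2, b3⟩ := h2 n R hR k c i hi hall hd
      rw [b1 hc1, lbs_eq hi, sum_eq hall]
      simp

theorem bit_le (κ : Bit) : κ.i ≤ κ.k := by
  cases κ <;> simp [Bit.i, Bit.k]

/-- the shape of the reversed vector -/
theorem shp_rev (k : ℕ) (c : ℕ → ℕ) :
    (shp true k c).reverse = shp false k (fun j => c (k - j)) := by
  apply List.ext_getElem
  · rw [List.length_reverse, shp_len, shp_len]
  · intro j h1 h2
    rw [shp_len] at h2
    rw [List.getElem_reverse]
    unfold shp
    rw [List.getElem_map, List.getElem_map, List.getElem_range, List.getElem_range]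
    simp only [List.length_map, List.length_range]
    have e : k + 1 - 1 - j = k - j := by omega
    rw [e]
    have e2 : ((List.range (k + 1)).any (fun p => (if true = true then Nat.ble (k - j) p else Nat.ble p (k - j)) &&
        Nat.ble 2 (c p))) = ((List.range (k + 1)).any (fun p => (if false = true then Nat.ble j p else Nat.ble p j) &&
        Nat.ble 2 (c (k - p)))) := by
      rw [Bool.eq_iff_iff, List.any_eq_true, List.any_eq_true]
      constructor
      · rintro ⟨p, hp, h⟩
        rw [List.mem_range] at hp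
        simp only [if_true, Bool.and_eq_true, Nat.ble_eq] at h
        refine ⟨k - p, List.mem_range.2 (by omega), ?_⟩
        simp only [Bool.false_eq_true, if_false, Bool.and_eq_true, Nat.ble_eq]
        refine ⟨by omega, ?_⟩
        have e3 : k - (k - p) = p := by omega
        rw [e3]
        exact h.2
      · rintro ⟨p, hp, h⟩
        rw [List.mem_range] at hp
        simp only [Bool.false_eq_true, if_false, Bool.and_eq_true, Nat.ble_eq] at h
        refine ⟨k - p, List.mem_range.2 (by omega), ?_⟩
        simp only [if_true, Bool.and_eq_true, Nat.ble_eq]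
        exact ⟨by omega, h.2⟩
    by_cases h0 : c (k - j) = 0
    · rw [if_pos h0, if_pos h0]
    · rw [if_neg h0, if_neg h0]
      have e4 : ((List.range (k + 1)).any (fun p => (if True then Nat.ble (k - j) p else Nat.ble p (k - j)) &&
          Nat.ble 2 (c p))) = ((List.range (k + 1)).any (fun p => (if false = true then Nat.ble j p else Nat.ble p j) &&
          Nat.ble 2 (c (k - p)))) := by
        rw [← e2]
        simp only [if_true]
      rw [e4]

theorem deg_rev (k : ℕ) (c : ℕ → ℕ) : deg k (fun j => c (k - j)) = deg k c := by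
  unfold deg
  have h := Finset.sum_range_reflect c (k + 1)
  rw [← h]
  apply Finset.sum_congr rfl
  intro j _
  have e : k + 1 - 1 - j = k - j := by omega
  rw [e]

theorem ab_rev {n : ℕ} {R R' : FC} (h : ∀ (k : ℕ) (a b : ℕ → ℕ),
    R'.R k a b ↔ R.R k (fun j => a (k - j)) (fun j => b (k - j))) {k : ℕ} {a : ℕ → ℕ} {i : ℕ}
    (hi : i ≤ k) : MWL.Ab n R' k a i ↔ MWL.Ab n R k (fun j => a (k - j)) (k - i) := by
  unfold MWL.Ab
  rw [h]
  constructor
  · intro h1
    refine R.ext (fun _ _ => rfl) (fun j hj => ?_) h1
    unfold ad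
    by_cases hji : k - j = i
    · have e : j = k - i := by omega
      rw [if_pos hji, if_pos e]
    · have e : ¬ j = k - i := by omega
      rw [if_neg hji, if_neg e]
  · intro h1
    refine R.ext (fun _ _ => rfl) (fun j hj => ?_) h1
    unfold ad
    by_cases hji : k - j = i
    · have e : j = k - i := by omega
      rw [if_pos hji, if_pos e]
    · have e : ¬ j = k - i := by omega
      rw [if_neg hji, if_neg e]

/-- row TBR -/
theorem tbr (_hT : MWL.TrnStmt) (hH : MWL.HvpStmt) (h1 : MWL.Ta1Stmt) (h2 : MWL.Ta2Stmt)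
    (hV : MWL.RevStmt) : TbrStmt := by
  intro r n β hR k c i hi hd
  cases r with
  | false =>
    have hR' : LR n (FC.ofFIC β) := hR
    rw [tabF_spec hH h1 h2 hR' hi hd]
    rfl
  | true =>
    have hR' : LRd n (FC.ofFIC β) := hR
    obtain ⟨R', hrev⟩ := hV (FC.ofFIC β)
    have hL : LR n R' := by
      refine ⟨hR'.pos, ?_, ?_⟩
      · rw [hrev]
        refine (FC.ofFIC β).ext (fun j hj => ?_) (fun j hj => ?_) hR'.per
        · have : j = 0 := by omega
          subst this; rfl
        · have : j = 0 := by omega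
          subst this; rfl
      · rw [hrev]
        refine (FC.ofFIC β).ext (fun j hj => ?_) (fun j hj => ?_) hR'.rr
        · interval_cases j <;> rfl
        · interval_cases j <;> rfl
    have hd' : 2 ≤ deg k (fun j => c (k - j)) := by rw [deg_rev]; exact hd
    have h3 := tabF_spec hH h1 h2 hL (k := k) (c := fun j => c (k - j)) (i := k - i)
      (by omega) hd'
    have h4 : MWL.Ab n R' k (fun j => c (k - j)) (k - i) ↔ Ab n (FC.ofFIC β) k c i := by
      rw [ab_rev hrev (by omega)]
      have e : k - (k - i) = i := by omega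
      rw [e]
      constructor
      · intro h5
        refine (FC.ofFIC β).ext (fun j hj => ?_) (fun j hj => ?_) h5
        · have e2 : k - (k - j) = j := by omega
          simp only [e2]
        · have e2 : k - (k - j) = j := by omega
          simp only [ad, e2]
      · intro h5
        refine (FC.ofFIC β).ext (fun j hj => ?_) (fun j hj => ?_) h5
        · have e2 : k - (k - j) = j := by omega
          simp only [e2]
        · have e2 : k - (k - j) = j := by omega
          simp only [ad, e2]
    rw [← h4, h3, ← shp_rev]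
    have h6 : ∀ κ : Bit, Has n R' κ ↔ HB true n β κ := by
      intro κ
      unfold Has HB
      rw [ab_rev hrev (bit_le κ)]
      rfl
    constructor
    · intro h5 κ hκ
      exact (h6 κ).1 (h5 κ hκ)
    · intro h5 κ hκ
      exact (h6 κ).2 (h5 κ hκ)

end Pool.Agent.MWC.H70
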